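import Mathlib

set_option autoImplicit false

/-!
# Absolute points of polarities of symmetric designs: parity and trace
-/

namespace Pool.Agent.R117.Pol

open Finset

variable {v : ℕ}

/-- The parity relation for the number of absolute points on a block. -/
lemma parity (C : Fin v → Finset (Fin v)) (hs : ∀ x y, x ∈ C y ↔ y ∈ C x) (x : Fin v) :
    ((∑ y ∈ C x, (C y ∩ C x).card : ℕ) : ZMod 2)
      = (((C x).filter (fun y => y ∈ C y)).card : ZMod 2) := by
  classical
  have h1 : ((∑ y ∈ C x, (C y ∩ C x).card : ℕ) : ZMod 2)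
      = ∑ p ∈ C x ×ˢ C x, (if p.2 ∈ C p.1 then (1 : ZMod 2) else 0) := by
    rw [Finset.sum_product]
    push_cast
    refine Finset.sum_congr rfl fun y _ => ?_
    rw [← Finset.sum_filter, Finset.sum_const, nsmul_eq_mul, mul_one]
    congr 2
    ext z
    simp [and_comm]
  have h2 : ∑ p ∈ C x ×ˢ C x, (if p.2 ∈ C p.1 ∧ p.1 ≠ p.2 then (1 : ZMod 2) else 0) = 0 := by
    refine Finset.sum_involution (fun p _ => (p.2, p.1)) ?_ ?_ ?_ ?_
    · rintro ⟨y, z⟩ _
      simp only
      by_cases h : z ∈ C y ∧ y ≠ z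
      · rw [if_pos h, if_pos ⟨(hs y z).2 h.1, h.2.symm⟩]
        decide
      · rw [if_neg h, if_neg (fun h' => h ⟨(hs z y).2 h'.1, h'.2.symm⟩)]
        simp
    · rintro ⟨y, z⟩ _ hne heq
      simp only at hne heq
      have : ¬ (z ∈ C y ∧ y ≠ z) := by
        rintro ⟨_, h⟩
        exact h (by simpa using (congrArg Prod.snd heq))
      simp [this] at hne
    · rintro ⟨y, z⟩ h
      simp only [Finset.mem_product] at h ⊢
      exact ⟨h.2, h.1⟩
    · rintro ⟨y, z⟩ _
      rfl
  have h3 : ∑ p ∈ C x ×ˢ C x, (if p.2 ∈ C p.1 ∧ p.1 = p.2 then (1 : ZMod 2) else 0)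
      = (((C x).filter (fun y => y ∈ C y)).card : ZMod 2) := by
    rw [Finset.sum_product]
    have : ∀ y ∈ C x, ∑ z ∈ C x, (if z ∈ C y ∧ y = z then (1 : ZMod 2) else 0)
        = if y ∈ C y then 1 else 0 := by
      intro y hy
      rw [Finset.sum_eq_single y]
      · simp
      · intro z _ hzy
        rw [if_neg]
        rintro ⟨_, h⟩
        exact hzy h.symm
      · intro h; exact absurd hy h
    rw [Finset.sum_congr rfl this, ← Finset.sum_filter, Finset.sum_const, nsmul_eq_mul, mul_one]
  rw [h1, ← h3]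
  have h4 : ∑ p ∈ C x ×ˢ C x, (if p.2 ∈ C p.1 then (1 : ZMod 2) else 0)
      = ∑ p ∈ C x ×ˢ C x, (if p.2 ∈ C p.1 ∧ p.1 ≠ p.2 then (1 : ZMod 2) else 0)
        + ∑ p ∈ C x ×ˢ C x, (if p.2 ∈ C p.1 ∧ p.1 = p.2 then (1 : ZMod 2) else 0) := by
    rw [← Finset.sum_add_distrib]
    refine Finset.sum_congr rfl fun p _ => ?_
    by_cases h : p.2 ∈ C p.1 <;> by_cases h' : p.1 = p.2 <;> simp [h, h']
  rw [h4, h2, zero_add]

/-- The standing hypotheses: a symmetric incidence relation of a symmetric design. -/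
structure Sym (v k lam : ℕ) (C : Fin v → Finset (Fin v)) : Prop where
  sym : ∀ x y, x ∈ C y ↔ y ∈ C x
  size : ∀ x, (C x).card = k
  meet : ∀ x y, x ≠ y → (C x ∩ C y).card = lam

lemma Sym.sum_meet {k lam : ℕ} {C : Fin v → Finset (Fin v)} (h : Sym v k lam C) (x : Fin v) :
    ∑ y ∈ C x, (C y ∩ C x).card = if x ∈ C x then k + (k - 1) * lam else k * lam := by
  classical
  split_ifs with hx
  · rw [← Finset.add_sum_erase _ _ hx, Finset.inter_self, h.size,
      Finset.sum_congr rfl (g := fun _ => lam), Finset.sum_const, Finset.card_erase_of_mem hx,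
      h.size, smul_eq_mul]
    intro y hy
    exact h.meet y x (Finset.ne_of_mem_erase hy)
  · rw [Finset.sum_congr rfl (g := fun _ => lam), Finset.sum_const, h.size, smul_eq_mul]
    intro y hy
    exact h.meet y x (fun e => hx (e ▸ hy))

/-- The counting identity `lam (v - 1) = k (k - 1)`. -/
lemma Sym.count {k lam : ℕ} {C : Fin v → Finset (Fin v)} (h : Sym v k lam C) (x : Fin v) :
    lam * (v - 1) = k * (k - 1) := by
  classical
  have h1 : ∑ y ∈ Finset.univ.erase x, (C x ∩ C y).card = lam * (v - 1) := by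
    rw [Finset.sum_congr rfl (g := fun _ => lam), Finset.sum_const,
      Finset.card_erase_of_mem (Finset.mem_univ x), Finset.card_univ, Fintype.card_fin,
      smul_eq_mul, mul_comm]
    intro y hy
    exact h.meet x y (Finset.ne_of_mem_erase hy).symm
  have h2 : ∑ y : Fin v, (C x ∩ C y).card = k * k := by
    have : ∀ y : Fin v, (C x ∩ C y).card = ∑ z ∈ C x, if z ∈ C y then 1 else 0 := by
      intro y
      rw [← Finset.card_filter]
      rfl
    rw [Finset.sum_congr rfl (fun y _ => this y), Finset.sum_comm]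
    have h3 : ∀ z ∈ C x, ∑ y : Fin v, (if z ∈ C y then 1 else 0) = k := by
      intro z _
      rw [← Finset.card_filter, ← h.size z]
      congr 1
      ext y
      simp [h.sym z y]
    rw [Finset.sum_congr rfl h3, Finset.sum_const, h.size, smul_eq_mul]
  rw [← Finset.add_sum_erase _ _ (Finset.mem_univ x), Finset.inter_self, h.size, h1] at h2
  have : k * k = k + k * (k - 1) := by
    rcases k with _ | k
    · simp
    · rw [Nat.add_sub_cancel]; ring
  omega

/-- `k lam` odd: `k ≤ lam a`. -/
lemma Sym.odd_bound {k lam : ℕ} {C : Fin v → Finset (Fin v)} (h : Sym v k lam C)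
    (hv : 1 ≤ v) (hlam : 1 ≤ lam) (hodd : Odd (k * lam)) :
    k ≤ lam * (Finset.univ.filter (fun x => x ∈ C x)).card := by
  classical
  obtain ⟨hk, hl⟩ := Nat.odd_mul.1 hodd
  set P := Finset.univ.filter (fun x => x ∈ C x) with hP
  -- every block meets P
  have h1 : ∀ x : Fin v, 1 ≤ ((C x).filter (fun y => y ∈ C y)).card := by
    intro x
    by_contra hcon
    have h0 : ((C x).filter (fun y => y ∈ C y)).card = 0 := by omega
    have hp := parity C h.sym x
    rw [h0, h.sum_meet x] at hp
    rw [Nat.cast_zero, ZMod.natCast_eq_zero_iff_even] at hp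
    split_ifs at hp with hx
    · rcases hk with ⟨c, rfl⟩
      rcases hl with ⟨d, rfl⟩
      rw [Nat.add_sub_cancel] at hp
      rcases hp with ⟨e, he⟩
      have : 2 * c * (2 * d + 1) = 2 * (c * (2 * d + 1)) := by ring
      omega
    · exact (Nat.not_even_iff_odd.2 hodd) hp
  have h2 : ∑ x : Fin v, ((C x).filter (fun y => y ∈ C y)).card = P.card * k := by
    have : ∀ x : Fin v, ((C x).filter (fun y => y ∈ C y)).card
        = ∑ y ∈ P, if y ∈ C x then 1 else 0 := by
      intro x
      rw [← Finset.card_filter]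
      congr 1
      ext z
      simp [hP, and_comm]
    rw [Finset.sum_congr rfl (fun x _ => this x), Finset.sum_comm]
    have h3 : ∀ y ∈ P, ∑ x : Fin v, (if y ∈ C x then 1 else 0) = k := by
      intro y _
      rw [← Finset.card_filter, ← h.size y]
      congr 1
      ext x
      simp [h.sym y x]
    rw [Finset.sum_congr rfl h3, Finset.sum_const, smul_eq_mul]
  have h3 : v ≤ P.card * k := by
    rw [← h2]
    calc v = ∑ x : Fin v, 1 := by simp
      _ ≤ _ := Finset.sum_le_sum fun x _ => h1 x
  have h4 := h.count ⟨0, hv⟩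
  have hkpos : 1 ≤ k := hk.pos
  -- lam * v = k (k-1) + lam ≤ lam * a * k
  have h5 : lam * v = k * (k - 1) + lam := by
    obtain ⟨w, rfl⟩ : ∃ w, v = w + 1 := ⟨v - 1, by omega⟩
    rw [Nat.add_sub_cancel] at h4
    rw [mul_add, h4, mul_one]
  have h6 : k * (k - 1) + lam ≤ k * (lam * P.card) := by
    rw [← h5]
    calc lam * v ≤ lam * (P.card * k) := Nat.mul_le_mul_left _ h3
      _ = _ := by ring
  have h7 : k * (k - 1) < k * (lam * P.card) := by omega
  have h8 := Nat.lt_of_mul_lt_mul_left h7
  omega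

/-- `k lam` even and at least one absolute point: `k + lam ≤ (lam + 1) a`. -/
lemma Sym.even_bound {k lam : ℕ} {C : Fin v → Finset (Fin v)} (h : Sym v k lam C)
    (heven : Even (k * lam)) (hne : (Finset.univ.filter (fun x => x ∈ C x)).Nonempty) :
    k + lam ≤ (lam + 1) * (Finset.univ.filter (fun x => x ∈ C x)).card := by
  classical
  set P := Finset.univ.filter (fun x => x ∈ C x) with hP
  obtain ⟨y, hy⟩ := hne
  have hsub : C y ⊆ P ∪ (P.erase y).biUnion (fun z => C y ∩ C z) := by
    intro x hx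
    rw [Finset.mem_union]
    by_cases hxP : x ∈ P
    · exact Or.inl hxP
    · right
      have hxx : x ∉ C x := by
        intro hc; exact hxP (by simp [hP, hc])
      have hp := parity C h.sym x
      rw [h.sum_meet x, if_neg hxx] at hp
      have he : Even ((C x).filter (fun y => y ∈ C y)).card := by
        rw [← ZMod.natCast_eq_zero_iff_even, ← hp, ZMod.natCast_eq_zero_iff_even]
        exact heven
      have hyin : y ∈ (C x).filter (fun y => y ∈ C y) := by
        rw [Finset.mem_filter]
        exact ⟨(h.sym y x).2 hx, (Finset.mem_filter.1 hy).2⟩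
      have hpos : 0 < ((C x).filter (fun y => y ∈ C y)).card := Finset.card_pos.2 ⟨y, hyin⟩
      have htwo : 1 < ((C x).filter (fun y => y ∈ C y)).card := by
        rcases he with ⟨e, he⟩
        omega
      obtain ⟨z, hz, hzy⟩ := Finset.exists_mem_ne htwo y
      rw [Finset.mem_filter] at hz
      rw [Finset.mem_biUnion]
      refine ⟨z, Finset.mem_erase.2 ⟨hzy, by simp [hP, hz.2]⟩, ?_⟩
      rw [Finset.mem_inter]
      exact ⟨hx, (h.sym x z).2 hz.1⟩
  have h1 := Finset.card_le_card hsub
  rw [h.size] at h1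
  have h2 : ((P.erase y).biUnion (fun z => C y ∩ C z)).card ≤ (P.card - 1) * lam := by
    rw [← Finset.card_erase_of_mem hy]
    refine Finset.card_biUnion_le_card_mul _ _ _ fun z hz => ?_
    exact (h.meet y z (Finset.ne_of_mem_erase hz).symm).le
  have h3 := Finset.card_union_le P ((P.erase y).biUnion (fun z => C y ∩ C z))
  have hpos : 1 ≤ P.card := Finset.card_pos.2 ⟨y, hy⟩
  obtain ⟨b, hb⟩ : ∃ b, P.card = b + 1 := ⟨P.card - 1, by omega⟩
  rw [hb] at h2 h3 ⊢
  rw [Nat.add_sub_cancel] at h2
  have : (lam + 1) * (b + 1) = b * lam + lam + b + 1 := by ring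
  omega

end Pool.Agent.R117.Pol
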