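import Mathlib
import Pool.Agent.R117.Pol.Basic

set_option autoImplicit false

/-!
# Absolute points of polarities of symmetric designs: the trace argument
-/

namespace Pool.Agent.R117.Pol

open Finset Matrix

variable {v : ℕ}

/-- The incidence matrix. -/
noncomputable def inc (C : Fin v → Finset (Fin v)) : Matrix (Fin v) (Fin v) ℝ :=
  Matrix.of fun x y => if y ∈ C x then 1 else 0

/-- The all-one matrix. -/
noncomputable def allOne (v : ℕ) : Matrix (Fin v) (Fin v) ℝ := Matrix.of fun _ _ => 1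

lemma inc_mul_inc {k lam : ℕ} {C : Fin v → Finset (Fin v)} (h : Sym v k lam C) :
    inc C * inc C = ((k : ℝ) - lam) • (1 : Matrix (Fin v) (Fin v) ℝ) + (lam : ℝ) • allOne v := by
  classical
  ext x y
  have h1 : (inc C * inc C) x y = ((C x ∩ C y).card : ℝ) := by
    rw [Matrix.mul_apply]
    have : ∀ z, inc C x z * inc C z y = if z ∈ C x ∩ C y then 1 else 0 := by
      intro z
      simp only [inc, Matrix.of_apply, Finset.mem_inter]
      by_cases h1 : z ∈ C x <;> by_cases h2 : z ∈ C y <;>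
        simp [h1, h2, (h.sym y z)]
    rw [Finset.sum_congr rfl (fun z _ => this z), ← Finset.sum_filter, Finset.sum_const,
      nsmul_eq_mul, mul_one]
    congr 2
    ext z; simp
  rw [h1]
  by_cases hxy : x = y
  · subst hxy
    simp [allOne, h.size]
  · simp [allOne, Matrix.one_apply_ne hxy, h.meet x y hxy]

lemma inc_mul_allOne {k lam : ℕ} {C : Fin v → Finset (Fin v)} (h : Sym v k lam C) :
    inc C * allOne v = (k : ℝ) • allOne v := by
  classical
  ext x y
  rw [Matrix.mul_apply]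
  simp [inc, allOne, h.size]

lemma allOne_mul_inc {k lam : ℕ} {C : Fin v → Finset (Fin v)} (h : Sym v k lam C) :
    allOne v * inc C = (k : ℝ) • allOne v := by
  classical
  ext x y
  rw [Matrix.mul_apply]
  have : ∀ z, (if y ∈ C z then (1 : ℝ) else 0) = if z ∈ C y then 1 else 0 := by
    intro z
    simp [h.sym y z]
  simp [inc, allOne, this, h.size]

lemma allOne_mul_allOne : allOne v * allOne v = (v : ℝ) • allOne v := by
  ext x y
  rw [Matrix.mul_apply]
  simp [allOne]

lemma trace_natCast (E : Matrix (Fin v) (Fin v) ℝ) (hE : E * E = E) :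
    ∃ r : ℕ, E.trace = r := by
  have h1 : IsIdempotentElem (Matrix.toLin' E) := by
    unfold IsIdempotentElem
    rw [Module.End.mul_eq_comp, ← Matrix.toLin'_mul, hE]
  have h2 := (LinearMap.isProj_range_iff_isIdempotentElem (Matrix.toLin' E)).2 h1
  have h3 := h2.trace
  rw [Matrix.trace_toLin'_eq] at h3
  exact ⟨_, h3⟩

/-- The trace argument: `(a - k)^2 = m^2 (k - lam)` for an integer `m`. -/
lemma Sym.trace_eq {k lam : ℕ} {C : Fin v → Finset (Fin v)} (h : Sym v k lam C)
    (hv : 1 ≤ v) (hlk : lam < k) :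
    ∃ m : ℤ, (((Finset.univ.filter (fun x => x ∈ C x)).card : ℤ) - k) ^ 2
      = m ^ 2 * ((k : ℤ) - lam) := by
  classical
  set a := (Finset.univ.filter (fun x => x ∈ C x)).card with ha
  set s : ℝ := Real.sqrt ((k : ℝ) - lam) with hs
  have hn : (0 : ℝ) < (k : ℝ) - lam := by
    have : (lam : ℝ) < k := by exact_mod_cast hlk
    linarith
  have hs0 : 0 < s := Real.sqrt_pos.2 hn
  have hss : s * s = (k : ℝ) - lam := Real.mul_self_sqrt hn.le
  have hv0 : (0 : ℝ) < v := by exact_mod_cast hv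
  have hcount : (lam : ℝ) * ((v : ℝ) - 1) = k * ((k : ℝ) - 1) := by
    have h1 := h.count ⟨0, hv⟩
    have h2 : ((lam * (v - 1) : ℕ) : ℝ) = ((k * (k - 1) : ℕ) : ℝ) := by rw [h1]
    have hk1 : 1 ≤ k := by omega
    push_cast [Nat.cast_sub hv, Nat.cast_sub hk1] at h2
    exact h2
  set A := inc C with hA
  set J := allOne v with hJ
  set T : Matrix (Fin v) (Fin v) ℝ := A - ((k : ℝ) / v) • J with hT
  set I' : Matrix (Fin v) (Fin v) ℝ := 1 - ((1 : ℝ) / v) • J with hI
  have hAA : A * A = ((k : ℝ) - lam) • (1 : Matrix (Fin v) (Fin v) ℝ) + (lam : ℝ) • J :=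
    inc_mul_inc h
  have hAJ : A * J = (k : ℝ) • J := inc_mul_allOne h
  have hJA : J * A = (k : ℝ) • J := allOne_mul_inc h
  have hJJ : J * J = (v : ℝ) • J := allOne_mul_allOne
  have hII : I' * I' = I' := by
    rw [hI]
    simp only [mul_sub, sub_mul, smul_mul_assoc, mul_smul_comm, one_mul, mul_one, hJJ]
    match_scalars <;> field_simp <;> ring
  have hTI : T * I' = T := by
    rw [hI, hT]
    simp only [mul_sub, sub_mul, smul_mul_assoc, mul_smul_comm, mul_one, hJJ, hAJ]
    match_scalars <;> field_simp <;> ring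
  have hIT : I' * T = T := by
    rw [hI, hT]
    simp only [mul_sub, sub_mul, smul_mul_assoc, mul_smul_comm, one_mul, hJJ, hJA]
    match_scalars <;> field_simp <;> ring
  have hTT : T * T = ((k : ℝ) - lam) • I' := by
    rw [hI, hT]
    simp only [mul_sub, sub_mul, smul_mul_assoc, mul_smul_comm, hJJ, hJA, hAJ, hAA]
    match_scalars
    · ring
    · field_simp
      nlinarith [hcount]
  have hE : ((1 / 2 : ℝ) • (I' + (1 / s) • T)) * ((1 / 2 : ℝ) • (I' + (1 / s) • T))
      = (1 / 2 : ℝ) • (I' + (1 / s) • T) := by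
    simp only [mul_add, add_mul, smul_mul_assoc, mul_smul_comm, hTT, hIT, hTI, hII, ← hss]
    match_scalars <;> field_simp <;> ring
  obtain ⟨r, hr⟩ := trace_natCast _ hE
  have htJ : J.trace = v := by
    simp [hJ, allOne, Matrix.trace]
  have htA : A.trace = a := by
    simp [hA, inc, Matrix.trace, ha]
  have htr : (1 / 2 : ℝ) * (((v : ℝ) - 1 / v * v) + 1 / s * ((a : ℝ) - k / v * v)) = r := by
    rw [← hr, Matrix.trace_smul, Matrix.trace_add, Matrix.trace_smul, hI, hT, Matrix.trace_sub,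
      Matrix.trace_sub, Matrix.trace_smul, Matrix.trace_smul, htJ, htA, Matrix.trace_one,
      Fintype.card_fin]
    simp only [smul_eq_mul]
  refine ⟨2 * (r : ℤ) - (v - 1), ?_⟩
  have h5 : ((a : ℝ) - k) = (2 * (r : ℝ) - (v - 1)) * s := by
    rw [← htr]
    field_simp
    ring
  have h6 : ((a : ℝ) - k) ^ 2 = (2 * (r : ℝ) - (v - 1)) ^ 2 * ((k : ℝ) - lam) := by
    rw [h5, mul_pow, ← hss]
    ring
  have h7 : ((((a : ℤ) - k) ^ 2 : ℤ) : ℝ)
      = (((2 * (r : ℤ) - (v - 1)) ^ 2 * ((k : ℤ) - lam) : ℤ) : ℝ) := by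
    push_cast
    exact h6
  exact_mod_cast h7

/-- No absolute points, or more generally `a ≠ lam` absolute points:
`k - lam ≤ (a - lam)^2`. -/
lemma Sym.trace_bound {k lam : ℕ} {C : Fin v → Finset (Fin v)} (h : Sym v k lam C)
    (hv : 1 ≤ v) (hlk : lam < k)
    (hne : (Finset.univ.filter (fun x => x ∈ C x)).card ≠ lam) :
    ((k : ℤ) - lam) ≤ (((Finset.univ.filter (fun x => x ∈ C x)).card : ℤ) - lam) ^ 2 := by
  classical
  obtain ⟨m, hm⟩ := h.trace_eq hv hlk
  set a := (Finset.univ.filter (fun x => x ∈ C x)).card with ha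
  apply Int.le_of_dvd
  · have : (a : ℤ) - lam ≠ 0 := by
      intro h0
      apply hne
      have : (a : ℤ) = lam := by linarith
      exact_mod_cast this
    positivity
  · have h1 : ((a : ℤ) - lam) ^ 2
        = ((k : ℤ) - lam) * (m ^ 2 + (2 * ((a : ℤ) - k) + ((k : ℤ) - lam))) := by
      have : ((a : ℤ) - lam) ^ 2 = ((a : ℤ) - k) ^ 2
          + ((k : ℤ) - lam) * (2 * ((a : ℤ) - k) + ((k : ℤ) - lam)) := by ring
      rw [this, hm]
      ring
    exact Dvd.intro _ h1.symm

end Pool.Agent.R117.Pol
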