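import Mathlib
import Pool.Agent.R117.Pol.Trace

set_option autoImplicit false

/-!
# Absolute points of polarities of symmetric designs: the lower bound
-/

namespace Pool.Agent.R117.Pol

open Finset

variable {v : ℕ}

/-- Some absolute block contains few absolute points. -/
lemma Sym.few {k lam : ℕ} {C : Fin v → Finset (Fin v)} (h : Sym v k lam C)
    (hne : (Finset.univ.filter (fun x => x ∈ C x)).Nonempty) :
    ∃ y ∈ Finset.univ.filter (fun x => x ∈ C x),
      ((C y).filter (fun z => z ∈ C z)).card ^ 2 ≤ ((C y).filter (fun z => z ∈ C z)).card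
        + lam * ((Finset.univ.filter (fun x => x ∈ C x)).card - 1) := by
  classical
  set P := Finset.univ.filter (fun x => x ∈ C x) with hP
  set m : Fin v → ℕ := fun y => ((C y).filter (fun z => z ∈ C z)).card with hm
  by_contra hcon
  push Not at hcon
  have h1 : ∑ y ∈ P, (m y + lam * (P.card - 1)) < ∑ y ∈ P, (m y) ^ 2 :=
    Finset.sum_lt_sum_of_nonempty hne hcon
  have hmc : ∀ y, m y = ∑ z ∈ P, if z ∈ C y then 1 else 0 := by
    intro y
    rw [← Finset.card_filter]
    simp only [hm]
    congr 1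
    ext z
    simp [hP, and_comm]
  have h2 : ∑ y ∈ P, (m y) ^ 2
      = ∑ z ∈ P, ∑ w ∈ P, ∑ y ∈ P, (if z ∈ C y ∧ w ∈ C y then 1 else 0) := by
    have : ∀ y ∈ P, (m y) ^ 2 = ∑ z ∈ P, ∑ w ∈ P, (if z ∈ C y ∧ w ∈ C y then 1 else 0) := by
      intro y _
      rw [sq, hmc y, Finset.sum_mul_sum]
      refine Finset.sum_congr rfl fun z _ => Finset.sum_congr rfl fun w _ => ?_
      by_cases h1 : z ∈ C y <;> by_cases h2 : w ∈ C y <;> simp [h1, h2]
    rw [Finset.sum_congr rfl this, Finset.sum_comm]
    refine Finset.sum_congr rfl fun z _ => ?_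
    rw [Finset.sum_comm]
  have h3 : ∀ z ∈ P, ∑ w ∈ P, ∑ y ∈ P, (if z ∈ C y ∧ w ∈ C y then 1 else 0)
      ≤ m z + lam * (P.card - 1) := by
    intro z hz
    rw [← Finset.add_sum_erase _ _ hz]
    refine Nat.add_le_add ?_ ?_
    · rw [hmc z]
      refine Finset.sum_le_sum fun y _ => ?_
      simp [h.sym z y]
    · have : ∀ w ∈ P.erase z, ∑ y ∈ P, (if z ∈ C y ∧ w ∈ C y then 1 else 0) ≤ lam := by
        intro w hw
        rw [← Finset.card_filter, ← h.meet z w (Finset.ne_of_mem_erase hw).symm]
        refine Finset.card_le_card fun y hy => ?_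
        rw [Finset.mem_filter] at hy
        rw [Finset.mem_inter]
        exact ⟨(h.sym y z).2 hy.2.1, (h.sym y w).2 hy.2.2⟩
      calc ∑ w ∈ P.erase z, ∑ y ∈ P, (if z ∈ C y ∧ w ∈ C y then 1 else 0)
          ≤ ∑ _w ∈ P.erase z, lam := Finset.sum_le_sum this
        _ = lam * (P.card - 1) := by
          rw [Finset.sum_const, Finset.card_erase_of_mem hz, smul_eq_mul, mul_comm]
  have h4 := Finset.sum_le_sum h3
  rw [← h2] at h4
  exact absurd h1 (not_lt.2 h4)

/-- `k lam` even and at least one absolute point. -/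
lemma Sym.even_bound' {k lam : ℕ} {C : Fin v → Finset (Fin v)} (h : Sym v k lam C)
    (heven : Even (k * lam)) (hne : (Finset.univ.filter (fun x => x ∈ C x)).Nonempty) :
    ∃ m : ℕ, k ≤ m + lam * ((Finset.univ.filter (fun x => x ∈ C x)).card - 1) ∧
      m ^ 2 ≤ m + lam * ((Finset.univ.filter (fun x => x ∈ C x)).card - 1) := by
  classical
  obtain ⟨y, hy, hfew⟩ := h.few hne
  set P := Finset.univ.filter (fun x => x ∈ C x) with hP
  refine ⟨_, ?_, hfew⟩
  have hsub : C y ⊆ (C y).filter (fun z => z ∈ C z)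
      ∪ (P.erase y).biUnion (fun z => C y ∩ C z) := by
    intro x hx
    rw [Finset.mem_union]
    by_cases hxx : x ∈ C x
    · exact Or.inl (Finset.mem_filter.2 ⟨hx, hxx⟩)
    · right
      have hp := parity C h.sym x
      rw [h.sum_meet x, if_neg hxx] at hp
      have he : Even ((C x).filter (fun y => y ∈ C y)).card := by
        rw [← ZMod.natCast_eq_zero_iff_even, ← hp, ZMod.natCast_eq_zero_iff_even]
        exact heven
      have hyin : y ∈ (C x).filter (fun y => y ∈ C y) := by
        rw [Finset.mem_filter]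
        exact ⟨(h.sym y x).2 hx, (Finset.mem_filter.1 hy).2⟩
      have hpos : 0 < ((C x).filter (fun y => y ∈ C y)).card := Finset.card_pos.2 ⟨y, hyin⟩
      have htwo : 1 < ((C x).filter (fun y => y ∈ C y)).card := by
        rcases he with ⟨e, he⟩
        omega
      obtain ⟨z, hz, hzy⟩ := Finset.exists_mem_ne htwo y
      rw [Finset.mem_filter] at hz
      rw [Finset.mem_biUnion]
      refine ⟨z, Finset.mem_erase.2 ⟨hzy, by simp [hP, hz.2]⟩, ?_⟩
      rw [Finset.mem_inter]
      exact ⟨hx, (h.sym x z).2 hz.1⟩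
  have h1 := Finset.card_le_card hsub
  rw [h.size] at h1
  have h2 : ((P.erase y).biUnion (fun z => C y ∩ C z)).card ≤ (P.card - 1) * lam := by
    rw [← Finset.card_erase_of_mem hy]
    refine Finset.card_biUnion_le_card_mul _ _ _ fun z hz => ?_
    exact (h.meet y z (Finset.ne_of_mem_erase hz).symm).le
  have h3 := Finset.card_union_le ((C y).filter (fun z => z ∈ C z))
    ((P.erase y).biUnion (fun z => C y ∩ C z))
  rw [mul_comm] at h2
  omega

/-- The number `a ≥ 1` of absolute points satisfies `k - √k ≤ lam a`. -/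
lemma Sym.lower {k lam : ℕ} {C : Fin v → Finset (Fin v)} (h : Sym v k lam C)
    (hv : 1 ≤ v) (hlam : 1 ≤ lam) (hk : 1 ≤ k)
    (hne : (Finset.univ.filter (fun x => x ∈ C x)).Nonempty) :
    (k : ℝ) - Real.sqrt k ≤ lam * (Finset.univ.filter (fun x => x ∈ C x)).card := by
  classical
  set a := (Finset.univ.filter (fun x => x ∈ C x)).card with ha
  have hk1 : (1 : ℝ) ≤ Real.sqrt k := by
    rw [Real.one_le_sqrt]
    exact_mod_cast hk
  have hkk : Real.sqrt k * Real.sqrt k = k := Real.mul_self_sqrt (Nat.cast_nonneg k)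
  rcases Nat.even_or_odd (k * lam) with he | ho
  · obtain ⟨m, hm1, hm2⟩ := h.even_bound' he hne
    have hapos : 1 ≤ a := Finset.card_pos.2 hne
    set t := lam * (a - 1) with ht
    have hta : (t : ℝ) ≤ lam * a := by
      have : t ≤ lam * a := Nat.mul_le_mul_left _ (Nat.sub_le _ _)
      exact_mod_cast this
    refine le_trans ?_ hta
    by_contra hcon
    push Not at hcon
    have h1 : (k : ℝ) ≤ m + t := by exact_mod_cast hm1
    have h2 : (m : ℝ) ^ 2 ≤ m + t := by exact_mod_cast hm2
    have h3 : Real.sqrt k < m := by linarith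
    nlinarith [mul_pos (sub_pos.2 h3) (lt_of_lt_of_le zero_lt_one hk1)]
  · have h1 := h.odd_bound hv hlam ho
    have h2 : (k : ℝ) ≤ lam * a := by exact_mod_cast h1
    have : 0 ≤ Real.sqrt k := by linarith
    linarith

/-- A polarity without absolute points forces `k ≤ lam (lam + 1)`. -/
lemma Sym.null {k lam : ℕ} {C : Fin v → Finset (Fin v)} (h : Sym v k lam C)
    (hv : 1 ≤ v) (hlam : 1 ≤ lam)
    (hne : ¬ (Finset.univ.filter (fun x => x ∈ C x)).Nonempty) :
    k ≤ lam * (lam + 1) := by
  classical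
  by_contra hcon
  push Not at hcon
  have hlk : lam < k := by nlinarith
  rw [Finset.not_nonempty_iff_eq_empty] at hne
  have h1 := h.trace_bound hv hlk (by rw [hne, Finset.card_empty]; omega)
  rw [hne, Finset.card_empty] at h1
  have h2 : (k : ℤ) ≤ lam * (lam + 1) := by
    push_cast at h1
    nlinarith
  have h3 : k ≤ lam * (lam + 1) := by exact_mod_cast h2
  omega

end Pool.Agent.R117.Pol
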